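import Pool.Agent.Lib.MP_4fbe7c_an.UL.Iface
import Pool.Agent.Lib.MP_4fbe7c_an.SD.Calc

/-!
Module LBF (helper63): the functional is bounded below.
-/

set_option autoImplicit false

open Set

namespace Pool.Agent.Lib.MP_4fbe7c_an.UL.H63

open Pool.Agent.Lib.MP_4fbe7c_an.SD Pool.Agent.Lib.MP_4fbe7c_an.UL

/-- `θ - θ log θ ≤ U - θ log U`. -/
theorem pt_log {θ U : ℝ} (hθ : 0 < θ) (hU : 0 < U) :
    θ - θ * Real.log θ ≤ U - θ * Real.log U := by
  have h1 : Real.log (U / θ) ≤ U / θ - 1 := Real.log_le_sub_one_of_pos (div_pos hU hθ)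
  rw [Real.log_div hU.ne' hθ.ne'] at h1
  have h2 := mul_le_mul_of_nonneg_left h1 hθ.le
  have h3 : θ * (U / θ - 1) = U - θ := by field_simp
  rw [h3] at h2
  linarith

/-- `log P - log Q - 1 + Q / P ≥ 0`. -/
theorem pt_rel {P Q : ℝ} (hP : 0 < P) (hQ : 0 < Q) :
    0 ≤ Real.log P - Real.log Q - 1 + Q / P := by
  have h1 : Real.log (Q / P) ≤ Q / P - 1 := Real.log_le_sub_one_of_pos (div_pos hQ hP)
  rw [Real.log_div hQ.ne' hP.ne'] at h1
  linarith

/-- LBF. -/
theorem lbf (hwts : WtsStatement) : LbfStatement := by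
  intro L a₀ b m θ θ' θ'' n c ρ u v w h hr hθ ha hb hab t ht
  have hL := h.hL
  have W := hwts n c (rr n ρ) a₀ b hr ha hb
  have mem : ∀ {k i : ℕ}, k ≤ n → i ∈ Finset.range (k + 1) → i ≤ n := fun hk hi =>
    (Nat.lt_succ_iff.mp (Finset.mem_range.mp hi)).trans hk
  have ppos : ∀ k, k ≤ n → ∀ x ∈ Icc 0 L, 0 < Ps (fun i => u i t) k x := by
    intro k hk x hx
    exact Finset.sum_pos (fun i hi => h.pos i (mem hk hi) t ht x hx)
      ⟨0, Finset.mem_range.mpr (Nat.succ_pos k)⟩
  have ple : ∀ k, k ≤ n → ∀ x ∈ Icc 0 L, Ps (fun i => u i t) k x ≤ Ps (fun i => u i t) n x := by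
    intro k hk x hx
    exact Finset.sum_le_sum_of_subset_of_nonneg
      (Finset.range_subset_range.mpr (by omega))
      (fun i hi _ => (h.pos i (mem le_rfl hi) t ht x hx).le)
  have cθ : ContinuousOn θ (Icc 0 L) := hθ.d1.continuousOn
  have cu : ∀ i, i ≤ n → ContinuousOn (u i t) (Icc 0 L) := fun i hi => (h.dx i hi t ht).continuousOn
  have cP : ∀ k, k ≤ n → ContinuousOn (Ps (fun i => u i t) k) (Icc 0 L) := fun k hk =>
    continuousOn_finsetSum _ fun i hi => cu i (mem hk hi)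
  have clog : ∀ k, k ≤ n → ContinuousOn (fun x => Real.log (Ps (fun i => u i t) k x))
      (Icc 0 L) := fun k hk => (cP k hk).log fun x hx => (ppos k hk x hx).ne'
  have cβ : ∀ k, k ≤ n → ContinuousOn (fun x => bet c (rr n ρ) b k (θ x)) (Icc 0 L) := by
    intro k hk x hx
    have h1 := ((W (θ x) (hab x hx).1 (hab x hx).2).2.2.2.2.2 k hk).continuousAt
    exact ContinuousAt.comp_continuousWithinAt (g := bet c (rr n ρ) b k) h1 (cθ x hx)
  have cA : ContinuousOn (fun x => Af a₀ b (θ x)) (Icc 0 L) := by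
    intro x hx
    have h1 := (W (θ x) (hab x hx).1 (hab x hx).2).2.2.1.continuousAt
    exact ContinuousAt.comp_continuousWithinAt (g := Af a₀ b) h1 (cθ x hx)
  have memj : ∀ {j : ℕ}, j ∈ Finset.Ico c n → c ≤ n ∧ j + 1 ≤ n := fun hj => by
    have := Finset.mem_Ico.mp hj
    omega
  have c1 : ContinuousOn (fun x => θ x - θ x * Real.log (θ x)) (Icc 0 L) :=
    cθ.sub (cθ.mul (cθ.log fun x hx => (hθ.pos x hx).ne'))
  have c2 : ContinuousOn (fun x => (Ps (fun i => u i t) n x
      - (∑ k ∈ Finset.range (n + 1), bet c (rr n ρ) b k (θ x) *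
          Real.log (Ps (fun i => u i t) k x))
      + ∑ j ∈ Finset.Ico c n, Af a₀ b (θ x) * (nu (rr n ρ) (j + 1) *
          (Real.log (Ps (fun i => u i t) (j + 1) x)
          - Real.log (Ps (fun i => u i t) c x) - 1
          + Ps (fun i => u i t) c x / Ps (fun i => u i t) (j + 1) x)))) (Icc 0 L) := by
    refine ((cP n le_rfl).sub (continuousOn_finsetSum _ fun k hk => ?_)).add
      (continuousOn_finsetSum _ fun j hj => ?_)
    · exact (cβ k (mem le_rfl hk)).mul (clog k (mem le_rfl hk))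
    · obtain ⟨hcn, hjn⟩ := memj hj
      exact cA.mul (continuousOn_const.mul ((((clog (j + 1) hjn).sub (clog c hcn)).sub
        continuousOn_const).add ((cP c hcn).div (cP (j + 1) hjn)
          fun x hx => (ppos (j + 1) hjn x hx).ne')))
  unfold Fu
  refine intervalIntegral.integral_mono_on hL.le
    ((c1.mono (by rw [uIcc_of_le hL.le])).intervalIntegrable)
    ((c2.mono (by rw [uIcc_of_le hL.le])).intervalIntegrable) ?_
  intro x hx
  obtain ⟨-, ⟨hA, -⟩, -, hβ, hsum, -⟩ := W (θ x) (hab x hx).1 (hab x hx).2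
  have hU := ppos n le_rfl x hx
  have hθx := hθ.pos x hx
  have s1 : (∑ k ∈ Finset.range (n + 1), bet c (rr n ρ) b k (θ x) *
      Real.log (Ps (fun i => u i t) k x)) ≤ θ x * Real.log (Ps (fun i => u i t) n x) := by
    have s0 : θ x * Real.log (Ps (fun i => u i t) n x) =
        ∑ k ∈ Finset.range (n + 1), bet c (rr n ρ) b k (θ x) *
          Real.log (Ps (fun i => u i t) n x) := by
      rw [← Finset.sum_mul, hsum]
    rw [s0]
    refine Finset.sum_le_sum fun k hk => ?_
    have hk' := mem le_rfl hk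
    exact mul_le_mul_of_nonneg_left (Real.log_le_log (ppos k hk' x hx) (ple k hk' x hx))
      (hβ k hk')
  have s2 : 0 ≤ ∑ j ∈ Finset.Ico c n, Af a₀ b (θ x) * (nu (rr n ρ) (j + 1) *
          (Real.log (Ps (fun i => u i t) (j + 1) x)
          - Real.log (Ps (fun i => u i t) c x) - 1
          + Ps (fun i => u i t) c x / Ps (fun i => u i t) (j + 1) x)) := by
    refine Finset.sum_nonneg fun j hj => ?_
    obtain ⟨hcn, hjn⟩ := memj hj
    refine mul_nonneg hA (mul_nonneg ?_ ?_)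
    · unfold nu
      linarith [hr.ranti (j + 1) hjn]
    · exact pt_rel (ppos (j + 1) hjn x hx) (ppos c hcn x hx)
  have s3 := pt_log hθx hU
  linarith

end Pool.Agent.Lib.MP_4fbe7c_an.UL.H63
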