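import Pool.Agent.Lib.MP_4fbe7c_an.UL.Iface

/-!
Module MRG (helper63): the present species, ordered by their rates.
-/

set_option autoImplicit false

open Set

namespace Pool.Agent.Lib.MP_4fbe7c_an.UL.H63

open Pool.Agent.Lib.MP_4fbe7c_an.SD Pool.Agent.Lib.MP_4fbe7c_an.FC
  Pool.Agent.Lib.MP_4fbe7c_an.UL

/-- A sorted enumeration of a nonempty finite set. -/
theorem sorted_enum {N : ℕ} (d : Fin N → ℝ) (P : Finset (Fin N)) (i₀ : Fin N) (hi : i₀ ∈ P)
    (hmin : ∀ j, j ≠ i₀ → d i₀ < d j) :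
    ∃ (n : ℕ) (σ : ℕ → Fin N), σ 0 = i₀ ∧ (∀ k, k ≤ n → σ k ∈ P) ∧
      (∀ k, k < n → d (σ k) ≤ d (σ (k + 1))) ∧ (1 ≤ n → σ 1 ≠ i₀) ∧
      (∀ j ∈ P, ∃ k, k ≤ n ∧ σ k = j) ∧
      ∀ g : Fin N → ℝ, ∑ k ∈ Finset.range (n + 1), g (σ k) = ∑ j ∈ P, g j := by
  classical
  obtain ⟨n, hn⟩ : ∃ n, P.card = n + 1 :=
    ⟨P.card - 1, (Nat.succ_pred_eq_of_pos (Finset.card_pos.mpr ⟨i₀, hi⟩)).symm⟩
  let e : P ≃ Fin (n + 1) := P.equivFinOfCardEq hn
  let f : Fin (n + 1) → ℝ := fun k => d (e.symm k)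
  let τ : Equiv.Perm (Fin (n + 1)) := Tuple.sort f
  have hmono : Monotone (f ∘ τ) := Tuple.monotone_sort f
  let E : Fin (n + 1) ≃ P := τ.trans e.symm
  let σ : ℕ → Fin N := fun k => if h : k < n + 1 then (E ⟨k, h⟩ : Fin N) else i₀
  have hσ : ∀ (k : ℕ) (h : k < n + 1), σ k = (E ⟨k, h⟩ : Fin N) := fun k h => dif_pos h
  have hmem : ∀ k, k ≤ n → σ k ∈ P := by
    intro k hk
    rw [hσ k (by omega)]
    exact (E _).2
  have hd : ∀ k l (hk : k < n + 1) (hl : l < n + 1), k ≤ l → d (σ k) ≤ d (σ l) := by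
    intro k l hk hl hkl
    rw [hσ k hk, hσ l hl]
    exact hmono (show (⟨k, hk⟩ : Fin (n + 1)) ≤ ⟨l, hl⟩ from hkl)
  have hsurj : ∀ j ∈ P, ∃ k, k ≤ n ∧ σ k = j := by
    intro j hj
    refine ⟨(E.symm ⟨j, hj⟩ : Fin (n + 1)), Nat.lt_succ_iff.mp (E.symm ⟨j, hj⟩).2, ?_⟩
    rw [hσ _ (E.symm ⟨j, hj⟩).2]
    simp
  have h0 : σ 0 = i₀ := by
    by_contra hne
    obtain ⟨k, hk, hk'⟩ := hsurj i₀ hi
    have h1 := hd 0 k (by omega) (by omega) (Nat.zero_le k)
    rw [hk'] at h1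
    linarith [hmin (σ 0) hne]
  have hinj : ∀ k l, k ≤ n → l ≤ n → σ k = σ l → k = l := by
    intro k l hk hl hkl
    rw [hσ k (by omega), hσ l (by omega)] at hkl
    have := E.injective (Subtype.ext hkl)
    simpa using this
  refine ⟨n, σ, h0, hmem, ?_, ?_, hsurj, ?_⟩
  · intro k hk
    exact hd k (k + 1) (by omega) (by omega) (Nat.le_succ k)
  · intro hn1 h1
    have := hinj 1 0 hn1 (Nat.zero_le n) (h1.trans h0.symm)
    omega
  · intro g
    refine Finset.sum_bij (fun k _ => σ k) ?_ ?_ ?_ ?_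
    · intro k hk
      exact hmem k (Nat.lt_succ_iff.mp (Finset.mem_range.mp hk))
    · intro k hk l hl hkl
      exact hinj k l (Nat.lt_succ_iff.mp (Finset.mem_range.mp hk))
        (Nat.lt_succ_iff.mp (Finset.mem_range.mp hl)) hkl
    · intro j hj
      obtain ⟨k, hk, hk'⟩ := hsurj j hj
      exact ⟨k, Finset.mem_range.mpr (by omega), hk'⟩
    · intro k hk
      rfl

/-- MRG: the present species, ordered. -/
theorem mrg : MrgStatement := by
  classical
  intro L M m N d u v w i₀ hC hP hmin hPA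
  obtain ⟨n, σ, h0, hmem, hmono, h1, hsurj, hsum⟩ := sorted_enum d
    (Finset.univ.filter fun j => Pres L u j) i₀ (by simpa using hP) hmin
  have hpres : ∀ k, k ≤ n → Pres L u (σ k) := fun k hk => by
    have := hmem k hk
    simpa using this
  have hS := hC.sol
  refine ⟨n, σ, h0, ⟨?_, ?_, ?_⟩, ⟨hC.hL, hC.hm, ?_, ?_, ?_, ?_, ?_, ?_, ?_, ?_, ?_⟩, ?_⟩
  · exact hC.hd _
  · intro hn
    show d (σ 0) < d (σ 1)
    rw [h0]
    exact hmin _ (h1 hn)
  · exact hmono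
  · intro i _
    exact (hS.cu (σ i)).mono (Set.prod_mono_left Ioi_subset_Ici_self)
  · intro i _
    exact hS.cv (σ i)
  · intro i _
    exact hS.cw (σ i)
  · intro i hi t ht x hx
    exact hpres i hi t ht x hx
  · intro i _ t ht
    exact hS.dx (σ i) t ht
  · intro i _ t ht
    exact hS.dxx (σ i) t ht
  · intro i _ t ht
    exact hS.b0 (σ i) t ht
  · intro i _ t ht
    exact hS.bL (σ i) t ht
  · intro i _ t ht x hx
    have h2 := hS.dt (σ i) t ht x hx
    have h3 : ∑ j ∈ Finset.range (n + 1), u (σ j) t x = ∑ j, u j t x := by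
      rw [hsum fun j => u j t x]
      refine Finset.sum_subset (Finset.subset_univ _) fun j _ hj => ?_
      have hj' : ¬ Pres L u j := by simpa using hj
      exact ((hPA j).resolve_left hj') t ht.le x hx
    rw [h3]
    exact h2
  · intro j hj
    rcases hPA j with h4 | h4
    · right
      obtain ⟨k, hk, hk'⟩ := hsurj j (by simpa using h4)
      refine ⟨k, ?_, hk, hk'⟩
      rcases Nat.eq_zero_or_pos k with h5 | h5
      · exact absurd (by rw [← hk', h5, h0]) hj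
      · exact h5
    · exact Or.inl h4

end Pool.Agent.Lib.MP_4fbe7c_an.UL.H63
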