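import Pool.Agent.Lib.MP_4fbe7c_an.UL.Iface

/-!
Modules STA and RTS (helper63).
-/

set_option autoImplicit false

open Set

namespace Pool.Agent.Lib.MP_4fbe7c_an.UL.H63

open Pool.Agent.Lib.MP_4fbe7c_an.SD Pool.Agent.Lib.MP_4fbe7c_an.UL

/-- STA: these fields form a state. -/
theorem sta : StaStatement := by
  intro n ρ f f' x h
  have hρ0 : 0 < ρ 0 := (h 0 (Nat.zero_le n)).1
  have mem : ∀ {k i : ℕ}, k ≤ n → i ∈ Finset.range (k + 1) → i ≤ n := fun hk hi =>
    (Nat.lt_succ_iff.mp (Finset.mem_range.mp hi)).trans hk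
  have ppos : ∀ k, k ≤ n → 0 < Ps f k x := by
    intro k hk
    exact Finset.sum_pos (fun i hi => (h i (mem hk hi)).2)
      ⟨0, Finset.mem_range.mpr (Nat.succ_pos k)⟩
  have hU : 0 < Ps f n x := ppos n le_rfl
  refine ⟨?_, ?_, ?_, ?_, ?_⟩
  · exact div_pos (ppos 0 (Nat.zero_le n)) hU
  · intro k hk
    unfold Sx
    gcongr
    unfold Ps
    rw [Finset.sum_range_succ _ (k + 1)]
    linarith [(h (k + 1) hk).2]
  · exact div_self hU.ne'
  · unfold Zzx Zx Rs Ps
    rw [Finset.sum_range_one, Finset.sum_range_one]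
    exact mul_div_mul_left _ _ hρ0.ne'
  · intro k hk
    have hρk : 0 < ρ (k + 1) := (h (k + 1) hk).1
    have hk' : k + 1 ≤ n := hk
    unfold rr Zzx Zx
    rw [if_pos hk']
    have e1 : Rs ρ f' (k + 1) x = Rs ρ f' k x + ρ (k + 1) * f' (k + 1) x := by
      unfold Rs
      rw [Finset.sum_range_succ _ (k + 1)]
    have e2 : Ps f' (k + 1) x = Ps f' k x + f' (k + 1) x := by
      unfold Ps
      rw [Finset.sum_range_succ _ (k + 1)]
    rw [e1, e2]
    have hU' := hU.ne'
    field_simp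
    ring

/-- RTS: the rates of an ordered system. -/
theorem rts : RtsStatement := by
  intro n ρ h
  classical
  have hle : ∀ k l, k ≤ l → l ≤ n → ρ k ≤ ρ l := by
    intro k l hkl
    induction l, hkl using Nat.le_induction with
    | base => exact fun _ => le_rfl
    | succ l _ ih => exact fun hl => (ih (by omega)).trans (h.mono l (by omega))
  have hpos : ∀ k, k ≤ n → 0 < ρ k := fun k hk => h.pos.trans_le (hle 0 k (Nat.zero_le k) hk)
  have e : ∀ k, k ≤ n → rr n ρ k = ρ 0 / ρ k := fun k hk => by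
    unfold rr
    rw [if_pos hk]
  have elast : ∀ k, n < k → rr n ρ k = 0 := fun k hk => by
    unfold rr
    rw [if_neg (by omega)]
  refine ⟨Nat.findGreatest (fun k => ρ k ≤ 3 * ρ 0) n, ?_, ?_, ?_, ?_, ?_, ?_, ?_, ?_⟩
  · rw [e 0 (Nat.zero_le n)]
    exact div_self h.pos.ne'
  · by_cases hn : 1 ≤ n
    · rw [e 1 hn, div_lt_one (hpos 1 hn)]
      exact h.lt hn
    · rw [elast 1 (by omega)]
      exact one_pos
  · exact elast (n + 1) (Nat.lt_succ_self n)
  · intro k hk
    rw [e k hk]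
    exact div_pos h.pos (hpos k hk)
  · intro k hk
    rw [e k hk]
    by_cases hk' : k + 1 ≤ n
    · rw [e (k + 1) hk']
      exact div_le_div_of_nonneg_left h.pos.le (hpos k hk) (h.mono k hk')
    · rw [elast (k + 1) (by omega)]
      exact (div_pos h.pos (hpos k hk)).le
  · exact Nat.findGreatest_le n
  · intro k hk
    have hc : ρ (Nat.findGreatest (fun k => ρ k ≤ 3 * ρ 0) n) ≤ 3 * ρ 0 :=
      Nat.findGreatest_spec (P := fun k => ρ k ≤ 3 * ρ 0) (Nat.zero_le n) (by linarith [h.pos])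
    have hcn := Nat.findGreatest_le (P := fun k => ρ k ≤ 3 * ρ 0) n
    have hkn := hk.trans hcn
    rw [e k hkn, div_le_div_iff₀ (by norm_num) (hpos k hkn)]
    linarith [hle k _ hk hcn]
  · intro k hk hk'
    by_cases hkn : k ≤ n
    · have := Nat.findGreatest_is_greatest (P := fun k => ρ k ≤ 3 * ρ 0) hk hkn
      rw [e k hkn, div_le_div_iff₀ (hpos k hkn) (by norm_num)]
      linarith [not_le.mp this]
    · rw [elast k (by omega)]
      norm_num

end Pool.Agent.Lib.MP_4fbe7c_an.UL.H63
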